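import Mathlib

/-!
# Alternating variables and maximal minors
-/

set_option autoImplicit false

namespace Pool.Agent.H99.CU

open MvPolynomial Equiv

variable {r m : ℕ}

/-- The variable with the indices `c 0, …, c (r - 1)`, alternating in `c`: it is `sign σ` times the
variable of the increasing sequence `c ∘ σ`, and it is `0` if two of the indices are equal. -/
noncomputable def xx (c : Fin r → Fin m) : MvPolynomial (Fin r ↪o Fin m) ℂ :=
  ∑ σ : Perm (Fin r), if h : StrictMono (c ∘ σ) then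
    (Perm.sign σ : ℤ) • X (OrderEmbedding.ofStrictMono (c ∘ σ) h) else 0

/-- the weight of a sequence of indices -/
def ww {ι : Type*} [Fintype ι] (c : ι → Fin m) : ℕ := ∑ i, (c i : ℕ)

lemma xx_comp (c : Fin r → Fin m) (τ : Perm (Fin r)) :
    xx (c ∘ τ) = (Perm.sign τ : ℤ) • xx c := by
  unfold xx
  rw [Finset.smul_sum]
  refine Fintype.sum_equiv (Equiv.mulLeft τ) _ _ fun σ => ?_
  simp only [coe_mulLeft, Perm.coe_mul, Perm.sign_mul]
  have e : (c ∘ ⇑τ) ∘ ⇑σ = c ∘ (⇑τ ∘ ⇑σ) := rfl
  by_cases h : StrictMono (c ∘ (⇑τ ∘ ⇑σ))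
  · have h' : StrictMono ((c ∘ ⇑τ) ∘ ⇑σ) := h
    rw [dif_pos h, dif_pos h', smul_smul]
    congr 1
    have := Int.units_mul_self (Perm.sign τ)
    have h2 : ((Perm.sign τ : ℤˣ) : ℤ) * ((Perm.sign τ : ℤˣ) : ℤ) = 1 := by
      rw [← Units.val_mul, this]; rfl
    rw [Units.val_mul, ← mul_assoc, h2, one_mul]
  · have h' : ¬ StrictMono ((c ∘ ⇑τ) ∘ ⇑σ) := h
    rw [dif_neg h, dif_neg h', smul_zero]

lemma xx_coe (I : Fin r ↪o Fin m) : xx (I : Fin r → Fin m) = X I := by
  unfold xx
  rw [Finset.sum_eq_single (1 : Perm (Fin r))]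
  · have h : StrictMono ((I : Fin r → Fin m) ∘ (1 : Perm (Fin r))) := I.strictMono
    rw [dif_pos h]
    simp only [Perm.sign_one, Units.val_one, one_smul]
    congr 1
  · intro σ _ hσ
    rw [dif_neg]
    intro h
    apply hσ
    have h1 : StrictMono σ := by
      intro i j hij
      exact I.lt_iff_lt.1 (h hij)
    ext i
    have h2 : (σ : Fin r → Fin r) = id := by
      have := Subsingleton.elim (h1.orderIsoOfSurjective _ σ.surjective) (OrderIso.refl _)
      funext i
      exact congrArg (fun e : Fin r ≃o Fin r => e i) this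
    simp [h2]
  · intro h
    exact absurd (Finset.mem_univ _) h

lemma xx_cases (c : Fin r → Fin m) :
    (¬ Function.Injective c ∧ xx c = 0) ∨
      ∃ (I : Fin r ↪o Fin m) (τ : Perm (Fin r)), c = (I : Fin r → Fin m) ∘ τ := by
  by_cases hc : Function.Injective c
  · right
    obtain ⟨σ, hσ⟩ : ∃ σ : Perm (Fin r), Monotone (c ∘ σ) := ⟨Tuple.sort c, Tuple.monotone_sort c⟩
    have h : StrictMono (c ∘ σ) := hσ.strictMono_of_injective (hc.comp σ.injective)
    refine ⟨OrderEmbedding.ofStrictMono _ h, σ⁻¹, ?_⟩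
    funext i
    simp [OrderEmbedding.ofStrictMono]
  · left
    refine ⟨hc, ?_⟩
    unfold xx
    refine Finset.sum_eq_zero fun σ _ => dif_neg fun h => hc ?_
    have := h.injective
    exact (Function.Injective.of_comp_iff' c σ.bijective).1 this

lemma ww_comp {ι : Type*} [Fintype ι] (c : ι → Fin m) (τ : Perm ι) : ww (c ∘ τ) = ww c := by
  unfold ww
  exact Equiv.sum_comp τ (fun i => (c i : ℕ))

/-- the matrix of variables -/
noncomputable def etaM (m r : ℕ) : Matrix (Fin m) (Fin r) (MvPolynomial (Fin m ×ₗ Fin r) ℂ) :=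
  fun b j => X (toLex (b, j))

/-- the maximal minor with the rows `c 0, …, c (r - 1)` -/
noncomputable def mu (c : Fin r → Fin m) : MvPolynomial (Fin m ×ₗ Fin r) ℂ :=
  ((etaM m r).submatrix c id).det

/-- the substitution of the minors for the variables -/
noncomputable def phi (r m : ℕ) :
    MvPolynomial (Fin r ↪o Fin m) ℂ →ₐ[ℂ] MvPolynomial (Fin m ×ₗ Fin r) ℂ :=
  aeval fun I => mu (I : Fin r → Fin m)

lemma mu_comp (c : Fin r → Fin m) (τ : Perm (Fin r)) :
    mu (c ∘ τ) = (Perm.sign τ : ℤ) • mu c := by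
  unfold mu
  have := Matrix.det_permute τ ((etaM m r).submatrix c id)
  rw [Matrix.submatrix_submatrix] at this
  rw [Function.comp_id] at this
  rw [this, zsmul_eq_mul]

lemma mu_not_inj (c : Fin r → Fin m) (hc : ¬ Function.Injective c) : mu c = 0 := by
  unfold mu
  simp only [Function.Injective, not_forall] at hc
  obtain ⟨i, j, hij, hne⟩ := hc
  refine Matrix.det_zero_of_row_eq hne ?_
  funext k
  simp [Matrix.submatrix_apply, hij]

lemma phi_xx (c : Fin r → Fin m) : phi r m (xx c) = mu c := by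
  rcases xx_cases c with ⟨h, h0⟩ | ⟨I, τ, rfl⟩
  · rw [h0, map_zero, mu_not_inj c h]
  · rw [xx_comp, map_zsmul, xx_coe, mu_comp]
    simp [phi]

end Pool.Agent.H99.CU
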