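import Pool.Agent.H99.CU.Pl1

/-!
# The quadratic relations between the maximal minors
-/

set_option autoImplicit false

namespace Pool.Agent.H99.CU

open MvPolynomial Equiv

variable {r m : ℕ}

/-- The quadratic (Plücker) relation: `r + 1` of the indices, `d`, are alternated over the two
factors; the other indices `u`, `v` of the two factors are fixed. -/
noncomputable def plu {k p q l : ℕ} (e₁ : Fin k ⊕ Fin p ≃ Fin r) (e₂ : Fin q ⊕ Fin l ≃ Fin r)
    (u : Fin k → Fin m) (v : Fin l → Fin m) (d : Fin p ⊕ Fin q → Fin m) :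
    MvPolynomial (Fin r ↪o Fin m) ℂ :=
  ∑ σ : Perm (Fin p ⊕ Fin q), (Perm.sign σ : ℤ) •
    (xx (Sum.elim u (fun i => d (σ (Sum.inl i))) ∘ e₁.symm) *
      xx (Sum.elim (fun i => d (σ (Sum.inr i))) v ∘ e₂.symm))

/-- the set of all the quadratic relations -/
def pluSet (r m : ℕ) : Set (MvPolynomial (Fin r ↪o Fin m) ℂ) :=
  {y | ∃ (k p q l : ℕ) (_ : p + q = r + 1) (e₁ : Fin k ⊕ Fin p ≃ Fin r)
    (e₂ : Fin q ⊕ Fin l ≃ Fin r) (u : Fin k → Fin m) (v : Fin l → Fin m)
    (d : Fin p ⊕ Fin q → Fin m), y = plu e₁ e₂ u v d}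

section alt

variable {R : Type*} [CommRing R]

/-- the product of two determinants as a multilinear map -/
noncomputable def dd {k p q l : ℕ} (e₁ : Fin k ⊕ Fin p ≃ Fin r) (e₂ : Fin q ⊕ Fin l ≃ Fin r)
    (u : Fin k → Fin r → R) (v : Fin l → Fin r → R) :
    MultilinearMap R (fun _ : Fin p ⊕ Fin q => Fin r → R) R :=
  (LinearMap.mul' R R).compMultilinearMap (MultilinearMap.domCoprod
    (((Matrix.detRowAlternating (n := Fin r) (R := R)).toMultilinearMap.domDomCongr
      e₁.symm).currySum u)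
    (((Matrix.detRowAlternating (n := Fin r) (R := R)).toMultilinearMap.domDomCongr
      (e₂.symm.trans (sumComm _ _))).currySum v))

lemma dd_apply {k p q l : ℕ} (e₁ : Fin k ⊕ Fin p ≃ Fin r) (e₂ : Fin q ⊕ Fin l ≃ Fin r)
    (u : Fin k → Fin r → R) (v : Fin l → Fin r → R) (w : Fin p ⊕ Fin q → Fin r → R) :
    dd e₁ e₂ u v w = Matrix.det (Matrix.of (Sum.elim u (fun i => w (Sum.inl i)) ∘ e₁.symm)) *
      Matrix.det (Matrix.of (Sum.elim (fun i => w (Sum.inr i)) v ∘ e₂.symm)) := by
  have h2 : (fun i => Sum.elim v (fun i => w (Sum.inr i)) ((e₂.symm.trans (sumComm _ _)) i)) =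
      Sum.elim (fun i => w (Sum.inr i)) v ∘ e₂.symm := by
    funext i
    simp only [Function.comp, trans_apply]
    rcases e₂.symm i with s | s <;> simp
  unfold dd
  rw [LinearMap.compMultilinearMap_apply, MultilinearMap.domCoprod_apply, LinearMap.mul'_apply,
    MultilinearMap.currySum_apply', MultilinearMap.currySum_apply',
    MultilinearMap.domDomCongr_apply, MultilinearMap.domDomCongr_apply, h2]
  rfl

lemma alt_zero (M : MultilinearMap R (fun _ : (Fin 0) => Fin r → R) R) : M = M := rfl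

lemma dd_alt {k p q l : ℕ} (h : p + q = r + 1) (e₁ : Fin k ⊕ Fin p ≃ Fin r)
    (e₂ : Fin q ⊕ Fin l ≃ Fin r)
    (u : Fin k → Fin r → R) (v : Fin l → Fin r → R) (w : Fin p ⊕ Fin q → Fin r → R) :
    ∑ σ : Perm (Fin p ⊕ Fin q), (Perm.sign σ : ℤ) • dd e₁ e₂ u v (fun i => w (σ i)) = 0 := by
  have h1 : MultilinearMap.alternatization (dd e₁ e₂ u v) = 0 := by
    refine Module.Basis.ext_alternating (Pi.basisFun R (Fin r)) fun f hf => ?_
    exfalso
    have := Fintype.card_le_of_injective f hf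
    simp at this
    omega
  have h2 := congrArg (fun F => F w) h1
  simp only [MultilinearMap.alternatization_apply, AlternatingMap.zero_apply] at h2
  rw [← h2]
  refine Finset.sum_congr rfl fun σ _ => ?_
  rw [MultilinearMap.domDomCongr_apply]
  rfl

end alt

lemma phi_plu {k p q l : ℕ} (h : p + q = r + 1) (e₁ : Fin k ⊕ Fin p ≃ Fin r)
    (e₂ : Fin q ⊕ Fin l ≃ Fin r)
    (u : Fin k → Fin m) (v : Fin l → Fin m) (d : Fin p ⊕ Fin q → Fin m) :
    phi r m (plu e₁ e₂ u v d) = 0 := by
  have h1 := dd_alt h e₁ e₂ (fun i => etaM m r (u i)) (fun i => etaM m r (v i))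
    (fun i => etaM m r (d i))
  unfold plu
  rw [map_sum, ← h1]
  refine Finset.sum_congr rfl fun σ _ => ?_
  rw [map_zsmul, map_mul, phi_xx, phi_xx, dd_apply]
  congr 2
  · unfold mu
    congr 1
    ext i j
    simp only [Matrix.submatrix_apply, Function.comp, Matrix.of_apply, id]
    rcases e₁.symm i with s | s <;> simp
  · unfold mu
    congr 1
    ext i j
    simp only [Matrix.submatrix_apply, Function.comp, Matrix.of_apply, id]
    rcases e₂.symm i with s | s <;> simp

/-- the ideal generated by the quadratic relations -/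
noncomputable def pluI (r m : ℕ) : Ideal (MvPolynomial (Fin r ↪o Fin m) ℂ) := Ideal.span (pluSet r m)

lemma pluI_le : pluI r m ≤ RingHom.ker (phi r m) := by
  unfold pluI
  rw [Ideal.span_le]
  rintro _ ⟨k, p, q, l, h, e₁, e₂, u, v, d, rfl⟩
  exact phi_plu h e₁ e₂ u v d

end Pool.Agent.H99.CU
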