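import Pool.Agent.H99.CU.Pl2

/-!
# Straightening
-/

set_option autoImplicit false

namespace Pool.Agent.H99.CU

open MvPolynomial Equiv

variable {r m : ℕ}

lemma sum_lt_aux {α β : Type*} [Fintype α] [Fintype β] [DecidableEq α] [DecidableEq β]
    (D : α ⊕ β → ℕ) (θ : ℕ) (h1 : ∀ b, D (Sum.inr b) ≤ θ) (h2 : ∀ a, θ < D (Sum.inl a))
    (σ : Perm (α ⊕ β)) {i : α} {j : β} (hij : σ (Sum.inl i) = Sum.inr j) :
    ∑ a, D (σ (Sum.inl a)) < ∑ a : α, D (Sum.inl a) := by
  set S : Finset (α ⊕ β) := Finset.univ.image (fun a : α => σ (Sum.inl a)) with hS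
  set T : Finset (α ⊕ β) := Finset.univ.image (fun a : α => (Sum.inl a : α ⊕ β)) with hT
  have iS : Function.Injective (fun a : α => σ (Sum.inl a)) := fun a b h =>
    Sum.inl_injective (σ.injective h)
  have eS : ∑ a, D (σ (Sum.inl a)) = ∑ x ∈ S, D x := by
    rw [hS, Finset.sum_image (fun a _ b _ h => iS h)]
  have eT : ∑ a : α, D (Sum.inl a) = ∑ x ∈ T, D x := by
    rw [hT, Finset.sum_image (fun a _ b _ h => Sum.inl_injective h)]
  have hc : S.card = T.card := by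
    rw [hS, hT, Finset.card_image_of_injective _ iS, Finset.card_image_of_injective _ Sum.inl_injective]
  have hc2 := Finset.card_sdiff_comm hc
  rw [eS, eT, ← Finset.sum_inter_add_sum_sdiff S T, ← Finset.sum_inter_add_sum_sdiff T S,
    Finset.inter_comm T S]
  have h3 : ∑ x ∈ S \ T, D x ≤ (S \ T).card * θ := by
    rw [← smul_eq_mul]
    refine Finset.sum_le_card_nsmul _ _ _ fun x hx => ?_
    rcases x with a | b
    · exfalso
      rw [Finset.mem_sdiff] at hx
      exact hx.2 (Finset.mem_image_of_mem _ (Finset.mem_univ _))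
    · exact h1 b
  have h4 : (T \ S).card * (θ + 1) ≤ ∑ x ∈ T \ S, D x := by
    rw [← smul_eq_mul]
    refine Finset.card_nsmul_le_sum _ _ _ fun x hx => ?_
    rw [Finset.mem_sdiff] at hx
    obtain ⟨a, _, rfl⟩ := Finset.mem_image.1 hx.1
    exact h2 a
  have h5 : 0 < (S \ T).card := by
    rw [Finset.card_pos]
    refine ⟨Sum.inr j, ?_⟩
    rw [Finset.mem_sdiff]
    refine ⟨?_, ?_⟩
    · rw [hS, ← hij]
      exact Finset.mem_image_of_mem (fun a : α => σ (Sum.inl a)) (Finset.mem_univ i)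
    · rw [hT]
      simp
  rw [← hc2] at h4
  nlinarith

lemma ww_elim {k p : ℕ} (e : Fin k ⊕ Fin p ≃ Fin r) (f : Fin k → Fin m) (g : Fin p → Fin m) :
    ww (Sum.elim f g ∘ e.symm) = ww f + ww g := by
  unfold ww
  have := Equiv.sum_comp e.symm (fun s => ((Sum.elim f g s : Fin m) : ℕ))
  simp only [Function.comp]
  rw [this, Fintype.sum_sum_type]
  simp

lemma ww_xx (c : Fin r → Fin m) : xx c = 0 ∨
    ∃ (I : Fin r ↪o Fin m) (s : ℤ), xx c = s • X I ∧ ww (I : Fin r → Fin m) = ww c := by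
  rcases xx_cases c with ⟨_, h⟩ | ⟨I, τ, rfl⟩
  · exact Or.inl h
  · right
    exact ⟨I, Perm.sign τ, by rw [xx_comp, xx_coe], (ww_comp _ τ).symm⟩

/-- `A` as a complex subspace -/
noncomputable def pluS (r m : ℕ) : Submodule ℂ (MvPolynomial (Fin r ↪o Fin m) ℂ) :=
  (pluI r m).restrictScalars ℂ

lemma quad (I J : Fin r ↪o Fin m) (k : Fin r) (hk : J k < I k) :
    (X I * X J : MvPolynomial (Fin r ↪o Fin m) ℂ) ∈ pluS r m ⊔ Submodule.span ℂ
      {y | ∃ I' J' : Fin r ↪o Fin m, ww (I' : Fin r → Fin m) < ww (I : Fin r → Fin m) ∧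
        ww (I' : Fin r → Fin m) + ww (J' : Fin r → Fin m) =
          ww (I : Fin r → Fin m) + ww (J : Fin r → Fin m) ∧ y = X I' * X J'} := by
  classical
  set W := pluS r m ⊔ Submodule.span ℂ
      {y | ∃ I' J' : Fin r ↪o Fin m, ww (I' : Fin r → Fin m) < ww (I : Fin r → Fin m) ∧
        ww (I' : Fin r → Fin m) + ww (J' : Fin r → Fin m) =
          ww (I : Fin r → Fin m) + ww (J : Fin r → Fin m) ∧
          y = (X I' * X J' : MvPolynomial (Fin r ↪o Fin m) ℂ)} with hW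
  have hkr := k.isLt
  let e₁ : Fin (k : ℕ) ⊕ Fin (r - k) ≃ Fin r := finSumFinEquiv.trans (finCongr (by omega))
  let e₂ : Fin (k + 1 : ℕ) ⊕ Fin (r - k - 1) ≃ Fin r := finSumFinEquiv.trans (finCongr (by omega))
  let u : Fin (k : ℕ) → Fin m := fun i => I (e₁ (Sum.inl i))
  let v : Fin (r - k - 1) → Fin m := fun i => J (e₂ (Sum.inr i))
  let d : Fin (r - k) ⊕ Fin (k + 1 : ℕ) → Fin m :=
    Sum.elim (fun i => I (e₁ (Sum.inr i))) (fun i => J (e₂ (Sum.inl i)))
  have hd1 : ∀ b, ((d (Sum.inr b) : Fin m) : ℕ) ≤ (J k : ℕ) := by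
    intro b
    have : e₂ (Sum.inl b) ≤ k := by
      rw [Fin.le_def]
      simp only [e₂, trans_apply, finSumFinEquiv_apply_left, finCongr_apply, Fin.val_cast,
        Fin.val_castAdd]
      omega
    exact Fin.le_def.1 (J.monotone this)
  have hd2 : ∀ a, (J k : ℕ) < ((d (Sum.inl a) : Fin m) : ℕ) := by
    intro a
    have : k ≤ e₁ (Sum.inr a) := by
      rw [Fin.le_def]
      simp only [e₁, trans_apply, finSumFinEquiv_apply_right, finCongr_apply, Fin.val_cast,
        Fin.val_natAdd]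
      omega
    exact lt_of_lt_of_le (Fin.lt_def.1 hk) (Fin.le_def.1 (I.monotone this))
  let c₁ : Perm (Fin (r - k) ⊕ Fin (k + 1 : ℕ)) → Fin r → Fin m := fun σ =>
    Sum.elim u (fun i => d (σ (Sum.inl i))) ∘ e₁.symm
  let c₂ : Perm (Fin (r - k) ⊕ Fin (k + 1 : ℕ)) → Fin r → Fin m := fun σ =>
    Sum.elim (fun i => d (σ (Sum.inr i))) v ∘ e₂.symm
  let tm : Perm (Fin (r - k) ⊕ Fin (k + 1 : ℕ)) → MvPolynomial (Fin r ↪o Fin m) ℂ := fun σ =>
    (Perm.sign σ : ℤ) • (xx (c₁ σ) * xx (c₂ σ))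
  have hsum : ∑ σ, tm σ = plu e₁ e₂ u v d := rfl
  have hI : Sum.elim u (fun i => d (Sum.inl i)) ∘ e₁.symm = (I : Fin r → Fin m) := by
    funext i
    obtain ⟨s, rfl⟩ := e₁.surjective i
    simp only [Function.comp, symm_apply_apply]
    rcases s with s | s <;> simp [u, d]
  have hJ : Sum.elim (fun i => d (Sum.inr i)) v ∘ e₂.symm = (J : Fin r → Fin m) := by
    funext i
    obtain ⟨s, rfl⟩ := e₂.surjective i
    simp only [Function.comp, symm_apply_apply]
    rcases s with s | s <;> simp [v, d]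
  have hA : ∀ σ₁ σ₂, tm (Perm.sumCongr σ₁ σ₂) = X I * X J := by
    intro σ₁ σ₂
    have h1 : c₁ (Perm.sumCongr σ₁ σ₂) = (I : Fin r → Fin m) ∘
        ((e₁.symm.trans (Perm.sumCongr 1 σ₁)).trans e₁) := by
      funext i
      obtain ⟨s, rfl⟩ := e₁.surjective i
      simp only [c₁, Function.comp, symm_apply_apply, trans_apply]
      rcases s with s | s <;> simp [u, d, Perm.sumCongr]
    have h2 : c₂ (Perm.sumCongr σ₁ σ₂) = (J : Fin r → Fin m) ∘
        ((e₂.symm.trans (Perm.sumCongr σ₂ 1)).trans e₂) := by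
      funext i
      obtain ⟨s, rfl⟩ := e₂.surjective i
      simp only [c₂, Function.comp, symm_apply_apply, trans_apply]
      rcases s with s | s <;> simp [v, d, Perm.sumCongr]
    simp only [tm]
    rw [h1, h2, xx_comp, xx_comp, xx_coe, xx_coe, Perm.sign_symm_trans_trans,
      Perm.sign_symm_trans_trans, Perm.sign_sumCongr, Perm.sign_sumCongr, Perm.sign_sumCongr]
    simp only [Perm.sign_one, one_mul, mul_one, smul_mul_smul_comm, smul_smul]
    have : (((Perm.sign σ₁ * Perm.sign σ₂ : ℤˣ) : ℤ) *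
        (((Perm.sign σ₁ : ℤˣ) : ℤ) * ((Perm.sign σ₂ : ℤˣ) : ℤ))) = 1 := by
      rw [← Units.val_mul, ← Units.val_mul, Int.units_mul_self]; rfl
    rw [this, one_smul]
  have hB : ∀ σ, σ ∉ (Perm.sumCongrHom (Fin (r - k)) (Fin (k + 1 : ℕ))).range → tm σ ∈ W := by
    intro σ hσ
    have hex : ∃ i j, σ (Sum.inl i) = Sum.inr j := by
      by_contra hcon
      apply hσ
      apply Perm.mem_sumCongrHom_range_of_perm_mapsTo_inl
      rintro _ ⟨i, rfl⟩
      rcases h : σ (Sum.inl i) with a | b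
      · exact ⟨a, rfl⟩
      · exact absurd ⟨i, b, h⟩ hcon
    obtain ⟨i, j, hij⟩ := hex
    have hlt := sum_lt_aux (fun x => ((d x : Fin m) : ℕ)) _ hd1 hd2 σ hij
    have hw1 : ww (c₁ σ) < ww (I : Fin r → Fin m) := by
      rw [← hI, ww_elim, ww_elim]
      exact Nat.add_lt_add_left hlt _
    have hw2 : ww (c₁ σ) + ww (c₂ σ) = ww (I : Fin r → Fin m) + ww (J : Fin r → Fin m) := by
      rw [← hI, ← hJ, ww_elim, ww_elim, ww_elim, ww_elim]
      have h3 := Equiv.sum_comp σ (fun x => ((d x : Fin m) : ℕ))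
      rw [Fintype.sum_sum_type, Fintype.sum_sum_type] at h3
      simp only [ww]
      omega
    refine Submodule.mem_sup_right ?_
    simp only [tm]
    rcases ww_xx (c₁ σ) with h1 | ⟨I', s, h1, h1'⟩
    · rw [h1, zero_mul, smul_zero]; exact Submodule.zero_mem _
    rcases ww_xx (c₂ σ) with h2 | ⟨J', t, h2, h2'⟩
    · rw [h2, mul_zero, smul_zero]; exact Submodule.zero_mem _
    rw [h1, h2, smul_mul_smul_comm, smul_smul]
    refine zsmul_mem (Submodule.subset_span ?_) _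
    refine ⟨I', J', by rw [h1']; exact hw1, by rw [h1', h2']; exact hw2, rfl⟩
  -- conclusion
  set G := (Perm.sumCongrHom (Fin (r - k)) (Fin (k + 1 : ℕ))).range with hG
  have hsplit := Finset.sum_filter_add_sum_filter_not Finset.univ (fun σ => σ ∈ G) tm
  have h1 : ∑ σ ∈ Finset.univ.filter (fun σ => σ ∈ G), tm σ =
      ((Finset.univ.filter (fun σ => σ ∈ G)).card : ℂ) • (X I * X J) := by
    rw [Finset.sum_congr rfl (g := fun _ => X I * X J)]
    · rw [Finset.sum_const, Nat.cast_smul_eq_nsmul]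
    · intro σ hσ
      rw [Finset.mem_filter] at hσ
      obtain ⟨⟨σ₁, σ₂⟩, rfl⟩ := hσ.2
      exact hA σ₁ σ₂
  have h2 : ∑ σ ∈ Finset.univ.filter (fun σ => ¬ σ ∈ G), tm σ ∈ W :=
    Submodule.sum_mem _ fun σ hσ => hB σ (Finset.mem_filter.1 hσ).2
  have h3 : plu e₁ e₂ u v d ∈ W := by
    refine Submodule.mem_sup_left ?_
    exact Ideal.subset_span ⟨_, _, _, _, by omega, e₁, e₂, u, v, d, rfl⟩
  have h4 : ((Finset.univ.filter (fun σ => σ ∈ G)).card : ℂ) ≠ 0 := by
    rw [Nat.cast_ne_zero]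
    apply Finset.card_ne_zero_of_mem (a := 1)
    rw [Finset.mem_filter]
    exact ⟨Finset.mem_univ _, G.one_mem⟩
  have h5 : (X I * X J : MvPolynomial (Fin r ↪o Fin m) ℂ) =
      (((Finset.univ.filter (fun σ => σ ∈ G)).card : ℂ))⁻¹ •
        (plu e₁ e₂ u v d - ∑ σ ∈ Finset.univ.filter (fun σ => ¬ σ ∈ G), tm σ) := by
    rw [← hsum, ← hsplit, add_sub_cancel_right, h1, smul_smul, inv_mul_cancel₀ h4, one_smul]
  rw [h5]
  exact Submodule.smul_mem _ _ (Submodule.sub_mem _ h3 h2)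

end Pool.Agent.H99.CU
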