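import Pool.Agent.H99.CU.Pl3

/-!
# Straightening of monomials
-/

set_option autoImplicit false

namespace Pool.Agent.H99.CU

open MvPolynomial Equiv

variable {r m : ℕ}

/-- standard monomials: the index sequences form a chain -/
def Std (T : (Fin r ↪o Fin m) →₀ ℕ) : Prop :=
  ∀ I ∈ T.support, ∀ J ∈ T.support, (∀ i, I i ≤ J i) ∨ (∀ i, J i ≤ I i)

/-- the span of the standard monomials -/
noncomputable def stdS (r m : ℕ) : Submodule ℂ (MvPolynomial (Fin r ↪o Fin m) ℂ) :=
  Submodule.span ℂ {y | ∃ T, Std T ∧ y = monomial T 1}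

noncomputable def Psi (T : (Fin r ↪o Fin m) →₀ ℕ) : ℕ :=
  T.sum fun I e => e * (ww (I : Fin r → Fin m)) ^ 2

noncomputable def dg (T : (Fin r ↪o Fin m) →₀ ℕ) : ℕ := T.sum fun _ e => e

lemma Psi_add (T T' : (Fin r ↪o Fin m) →₀ ℕ) : Psi (T + T') = Psi T + Psi T' := by
  unfold Psi
  rw [Finsupp.sum_add_index' (by simp) (by intros; ring)]

lemma dg_add (T T' : (Fin r ↪o Fin m) →₀ ℕ) : dg (T + T') = dg T + dg T' := by
  unfold dg
  rw [Finsupp.sum_add_index' (by simp) (by intros; ring)]

lemma Psi_single (I : Fin r ↪o Fin m) : Psi (Finsupp.single I 1) = (ww (I : Fin r → Fin m)) ^ 2 := by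
  unfold Psi
  rw [Finsupp.sum_single_index (by simp), one_mul]

lemma dg_single (I : Fin r ↪o Fin m) : dg (Finsupp.single I 1) = 1 := by
  unfold dg
  rw [Finsupp.sum_single_index (by simp)]

lemma ww_le (c : Fin r → Fin m) : ww c ≤ r * m := by
  unfold ww
  calc ∑ i, (c i : ℕ) ≤ ∑ _i : Fin r, m := Finset.sum_le_sum fun i _ => (c i).isLt.le
    _ = r * m := by simp

lemma Psi_le (T : (Fin r ↪o Fin m) →₀ ℕ) : Psi T ≤ dg T * (r * m) ^ 2 := by
  unfold Psi dg Finsupp.sum
  rw [Finset.sum_mul]
  refine Finset.sum_le_sum fun I _ => ?_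
  exact Nat.mul_le_mul_left _ (Nat.pow_le_pow_left (ww_le _) 2)

lemma straight (n : ℕ) : ∀ T : (Fin r ↪o Fin m) →₀ ℕ, dg T * (r * m) ^ 2 - Psi T = n →
    (monomial T 1 : MvPolynomial (Fin r ↪o Fin m) ℂ) ∈ pluS r m ⊔ stdS r m := by
  induction n using Nat.strong_induction_on with
  | _ n ih =>
    intro T hT
    by_cases hstd : Std T
    · exact Submodule.mem_sup_right (Submodule.subset_span ⟨T, hstd, rfl⟩)
    · have hIJ : ∃ I ∈ T.support, ∃ J ∈ T.support, (¬ ∀ i, I i ≤ J i) ∧ (¬ ∀ i, J i ≤ I i) ∧
          ww (I : Fin r → Fin m) ≤ ww (J : Fin r → Fin m) := by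
        unfold Std at hstd
        push Not at hstd
        obtain ⟨I, hI, J, hJ, ⟨i, hi⟩, ⟨j, hj⟩⟩ := hstd
        rcases le_total (ww (I : Fin r → Fin m)) (ww (J : Fin r → Fin m)) with h | h
        · exact ⟨I, hI, J, hJ, fun H => absurd (H i) (not_le.2 hi),
            fun H => absurd (H j) (not_le.2 hj), h⟩
        · exact ⟨J, hJ, I, hI, fun H => absurd (H j) (not_le.2 hj),
            fun H => absurd (H i) (not_le.2 hi), h⟩
      obtain ⟨I, hI, J, hJ, h1, h2, hw⟩ := hIJ
      have hne : I ≠ J := by
        rintro rfl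
        exact h1 fun i => le_rfl
      push Not at h1
      obtain ⟨k, hk⟩ := h1
      obtain ⟨T', rfl⟩ : ∃ T', T = T' + (Finsupp.single I 1 + Finsupp.single J 1) := by
        refine ⟨T - (Finsupp.single I 1 + Finsupp.single J 1), ?_⟩
        rw [tsub_add_cancel_of_le]
        intro K
        rw [Finsupp.mem_support_iff] at hI hJ
        simp only [Finsupp.add_apply, Finsupp.single_apply]
        by_cases hKI : I = K
        · subst hKI
          rw [if_pos rfl, if_neg (Ne.symm hne)]
          omega
        · by_cases hKJ : J = K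
          · subst hKJ
            rw [if_pos rfl, if_neg hKI]
            omega
          · rw [if_neg hKI, if_neg hKJ]
            omega
      have hq := quad I J k hk
      have e1 : (monomial (T' + (Finsupp.single I 1 + Finsupp.single J 1)) 1 :
          MvPolynomial (Fin r ↪o Fin m) ℂ) = monomial T' 1 * (X I * X J) := by
        rw [X, X, monomial_mul, monomial_mul]
        simp
      rw [e1]
      -- multiplication by the monomial
      have hmul : ∀ y ∈ pluS r m ⊔ Submodule.span ℂ
          {y | ∃ I' J' : Fin r ↪o Fin m, ww (I' : Fin r → Fin m) < ww (I : Fin r → Fin m) ∧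
            ww (I' : Fin r → Fin m) + ww (J' : Fin r → Fin m) =
              ww (I : Fin r → Fin m) + ww (J : Fin r → Fin m) ∧
              y = (X I' * X J' : MvPolynomial (Fin r ↪o Fin m) ℂ)},
          monomial T' (1 : ℂ) * y ∈ pluS r m ⊔ stdS r m := by
        intro y hy
        rw [Submodule.mem_sup] at hy
        obtain ⟨y1, hy1, y2, hy2, rfl⟩ := hy
        rw [mul_add]
        refine Submodule.add_mem _ (Submodule.mem_sup_left ?_) ?_
        · exact Ideal.mul_mem_left (pluI r m) _ hy1
        · induction hy2 using Submodule.span_induction with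
          | mem z hz =>
            obtain ⟨I', J', hlt, heq, rfl⟩ := hz
            have e2 : (monomial T' 1 * (X I' * X J') : MvPolynomial (Fin r ↪o Fin m) ℂ) =
                monomial (T' + (Finsupp.single I' 1 + Finsupp.single J' 1)) 1 := by
              rw [X, X, monomial_mul, monomial_mul]
              simp
            rw [e2]
            refine ih _ ?_ _ rfl
            rw [← hT]
            have b1 := Psi_le (T' + (Finsupp.single I' 1 + Finsupp.single J' 1))
            simp only [Psi_add, dg_add, Psi_single, dg_single] at b1 ⊢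
            have b2 : ww (I : Fin r → Fin m) ^ 2 + ww (J : Fin r → Fin m) ^ 2 <
                ww (I' : Fin r → Fin m) ^ 2 + ww (J' : Fin r → Fin m) ^ 2 := by
              have hJ' : ww (J' : Fin r → Fin m) = ww (I : Fin r → Fin m) +
                ww (J : Fin r → Fin m) - ww (I' : Fin r → Fin m) := by omega
              obtain ⟨t, ht⟩ : ∃ t, ww (I : Fin r → Fin m) = ww (I' : Fin r → Fin m) + t + 1 :=
                ⟨ww (I : Fin r → Fin m) - ww (I' : Fin r → Fin m) - 1, by omega⟩
              have hJ2 : ww (J' : Fin r → Fin m) = ww (J : Fin r → Fin m) + t + 1 := by omega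
              rw [ht] at hw ⊢
              rw [hJ2]
              nlinarith
            omega
          | zero => rw [mul_zero]; exact Submodule.zero_mem _
          | add x y _ _ hx hy => rw [mul_add]; exact Submodule.add_mem _ (hx) (hy)
          | smul c x _ hx => rw [mul_smul_comm]; exact Submodule.smul_mem _ _ hx
      exact hmul _ hq

lemma straight_top : pluS r m ⊔ stdS r m = ⊤ := by
  rw [eq_top_iff]
  intro y _
  rw [y.as_sum]
  refine Submodule.sum_mem _ fun T _ => ?_
  have : (monomial T (coeff T y) : MvPolynomial (Fin r ↪o Fin m) ℂ) = coeff T y • monomial T 1 := by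
    rw [smul_monomial, smul_eq_mul, mul_one]
  rw [this]
  exact Submodule.smul_mem _ _ (straight _ T rfl)

end Pool.Agent.H99.CU
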